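import Mathlib

namespace Pool.Agent.Results.MP_37b92f_co.Packing

open Finset Filter Topology Classical

/-- An ordered graph, on the ordered vertex set `Fin n`. -/
structure OG where
  n : ℕ
  G : SimpleGraph (Fin n)

/-- `f` is an embedding `H → G`. -/
def Emb (H G : OG) (f : Fin H.n → Fin G.n) : Prop :=
  StrictMono f ∧ ∀ u v, H.G.Adj u v → G.G.Adj (f u) (f v)

/-- The number of edges. -/
noncomputable def e (G : OG) : ℕ := G.G.edgeSet.ncard

/-- The subgraph `S` of `G`, with the inherited order, is `F`-free. -/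
def Free (F G : OG) (S : G.G.Subgraph) : Prop :=
  ¬∃ f : Fin F.n → Fin G.n, StrictMono f ∧ (∀ u, f u ∈ S.verts) ∧
    ∀ u v, F.G.Adj u v → S.Adj (f u) (f v)

/-- `ρ_<(F,G)`. -/
noncomputable def rhoIn (F G : OG) : ℝ :=
  sSup {x | ∃ S : G.G.Subgraph, Free F G S ∧ x = (S.edgeSet.ncard : ℝ) / e G}

/-- `ρ_<(F)`. -/
noncomputable def rho (F : OG) : ℝ := sInf {x | ∃ G, 1 ≤ e G ∧ x = rhoIn F G}

/-- A universal sequence. -/
def Universal (G : ℕ → OG) : Prop :=
  (∀ n, 1 ≤ e (G n)) ∧ ∀ F, Tendsto (fun n => rhoIn F (G n)) atTop (𝓝 (rho F))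

/-- `p` is the distribution of a random embedding `H → G`. -/
def RandEmb (H G : OG) (p : (Fin H.n → Fin G.n) → ℝ) : Prop :=
  (∀ f, 0 ≤ p f) ∧ ∑ f, p f = 1 ∧ ∀ f, p f ≠ 0 → Emb H G f

/-- The largest probability with which an edge of `G` lies in the random copy of `H`. -/
noncomputable def maxP (H G : OG) (p : (Fin H.n → Fin G.n) → ℝ) : ℝ :=
  sSup {x | ∃ a ∈ G.G.edgeSet, x = ∑ f with a ∈ Sym2.map f '' H.G.edgeSet, p f}

theorem le_rhoIn {F G : OG} {S : G.G.Subgraph} (h : Free F G S) :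
    (S.edgeSet.ncard : ℝ) / e G ≤ rhoIn F G := by
  refine le_csSup ⟨1, ?_⟩ ⟨S, h, rfl⟩
  rintro _ ⟨T, -, rfl⟩
  refine div_le_one_of_le₀ ?_ (by positivity)
  exact_mod_cast Set.ncard_le_ncard T.edgeSet_subset (Set.toFinite _)

theorem e_top (N : ℕ) : N ≤ e ⟨N + 1, ⊤⟩ := by
  have : (Set.univ : Set (Fin N)).ncard ≤ e ⟨N + 1, ⊤⟩ := by
    refine Set.ncard_le_ncard_of_injOn (fun i => s(0, i.succ)) (fun i _ => ?_) (fun i _ j _ h => ?_)
      (Set.toFinite _)
    · simpa using (Fin.succ_ne_zero i).symm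
    · simpa [(Fin.succ_ne_zero _).symm] using h
  simpa using this

theorem rho_lt (F : OG) : rho F < 1 := by
  let K : OG := ⟨F.n + 1 + 1, ⊤⟩
  have h1 : 1 ≤ e K := le_trans (by omega) (e_top (F.n + 1))
  have h2 : (0 : ℝ) < e K := by exact_mod_cast h1
  have h3 : (1 : ℝ) ≤ e K := by exact_mod_cast h1
  have : rho F ≤ rhoIn F K := by
    refine csInf_le ⟨0, ?_⟩ ⟨K, h1, rfl⟩
    rintro _ ⟨G, -, rfl⟩
    refine Real.sSup_nonneg ?_
    rintro _ ⟨T, -, rfl⟩
    positivity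
  refine this.trans_lt (lt_of_le_of_lt (show _ ≤ ((e K : ℝ) - 1) / e K from Real.sSup_le ?_ ?_) ?_)
  · rintro _ ⟨S, hS, rfl⟩
    have : S.edgeSet.ncard < e K := by
      refine Set.ncard_lt_ncard (S.edgeSet_subset.ssubset_of_ne fun h => hS ?_) (Set.toFinite _)
      have a : ∀ u v, u ≠ v → S.Adj u v := fun u v t => by
        rw [← SimpleGraph.Subgraph.mem_edgeSet, h]
        exact t
      refine ⟨Fin.castAdd 2, Fin.strictMono_castAdd 2, fun u => ?_, fun u v t => a _ _ ?_⟩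
      · obtain ⟨v, hv⟩ := exists_ne (Fin.castAdd 2 u)
        exact S.edge_vert (a _ _ hv.symm)
      · exact (Fin.castAdd_injective _ _).ne t.ne
    have : (S.edgeSet.ncard : ℝ) + 1 ≤ e K := by exact_mod_cast this
    gcongr
    linarith
  · exact div_nonneg (by linarith) h2.le
  · rw [div_lt_one h2]
    linarith

theorem ex_emb {H G : OG} (h1 : 1 ≤ e G) (h : rhoIn H G < 1) : ∃ f, Emb H G f := by
  by_contra c
  have := le_rhoIn (F := H) (S := (⊤ : G.G.Subgraph)) fun ⟨f, a, _, b⟩ => c ⟨f, a, b⟩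
  rw [SimpleGraph.Subgraph.edgeSet_top, ← e, div_self (by exact_mod_cast (by omega))] at this
  linarith

theorem e_le {H G : OG} {f} (h : Emb H G f) : e H ≤ e G := by
  refine Set.ncard_le_ncard_of_injOn (Sym2.map f) (fun a ha => ?_)
    (Sym2.map.injective h.1.injective).injOn (Set.toFinite _)
  induction a using Sym2.ind with
  | _ u v => exact h.2 u v ha

theorem pack {H G : OG} (h1 : 1 ≤ e G) (h : rhoIn H G < 1) :
    ∃ C : Finset (Fin H.n → Fin G.n), C.Nonempty ∧ (∀ f ∈ C, Emb H G f) ∧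
      ∀ a, (1 - rhoIn H G) * #{f ∈ C | a ∈ Sym2.map f '' H.G.edgeSet} * e G ≤ #C * e H := by
  have h2 : (0 : ℝ) < e G := by exact_mod_cast h1
  rcases H.G.edgeSet.eq_empty_or_nonempty with z | ⟨b, hb⟩
  · obtain ⟨f, hf⟩ := ex_emb h1 h
    exact ⟨{f}, by simp, by simpa, fun a => by simp [z]⟩
  obtain ⟨C, hC, mx⟩ := exists_max_image (univ.filter fun C : Finset (Fin H.n → Fin G.n) =>
    (∀ f ∈ C, Emb H G f) ∧ ∀ f ∈ C, ∀ g ∈ C, ∀ a ∈ Sym2.map f '' H.G.edgeSet,
      a ∈ Sym2.map g '' H.G.edgeSet → f = g) card ⟨∅, by simp⟩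
  obtain ⟨c1, c2⟩ := (mem_filter.1 hC).2
  let D : Finset (Sym2 (Fin G.n)) := (C ×ˢ H.G.edgeSet.toFinset).image fun q => q.2.map q.1
  have hD : ∀ g ∈ C, ∀ a ∈ Sym2.map g '' H.G.edgeSet, a ∈ D := by
    rintro g hg _ ⟨x, hx, rfl⟩
    exact mem_image.2 ⟨(g, x), mem_product.2 ⟨hg, by simpa using hx⟩, rfl⟩
  have cD : #D ≤ #C * e H := by
    refine card_image_le.trans ?_
    rw [card_product, e, Set.ncard_eq_toFinset_card']
  have fr : Free H G ((⊤ : G.G.Subgraph).deleteEdges D) := by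
    rintro ⟨f, f1, -, f2⟩
    simp only [SimpleGraph.Subgraph.deleteEdges_adj, SimpleGraph.Subgraph.top_adj] at f2
    have nd : ∀ a ∈ Sym2.map f '' H.G.edgeSet, a ∉ D := by
      rintro _ ⟨x, hx, rfl⟩
      induction x using Sym2.ind with
      | _ u v => exact (f2 u v hx).2
    have nf : f ∉ C := fun t => nd _ ⟨b, hb, rfl⟩ (hD f t _ ⟨b, hb, rfl⟩)
    have := mx (insert f C) (mem_filter.2 ⟨mem_univ _, fun g hg => ?_, fun g hg k hk a ha hb => ?_⟩)
    · rw [card_insert_of_notMem nf] at this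
      omega
    · rcases mem_insert.1 hg with rfl | hg
      · exact ⟨f1, fun u v t => (f2 u v t).1⟩
      · exact c1 g hg
    · rcases mem_insert.1 hg with g1 | hg <;> rcases mem_insert.1 hk with k1 | hk
      · rw [g1, k1]
      · exact absurd (hD k hk a hb) (nd a (g1 ▸ ha))
      · exact absurd (hD g hg a ha) (nd a (k1 ▸ hb))
      · exact c2 g hg k hk a ha hb
  have k1 := le_rhoIn fr
  have k2 : e G ≤ ((⊤ : G.G.Subgraph).deleteEdges D).edgeSet.ncard + #D := by
    rw [← Set.ncard_coe_finset]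
    refine le_trans (Set.ncard_le_ncard (fun a ha => ?_) (Set.toFinite _)) (Set.ncard_union_le _ _)
    induction a using Sym2.ind with
    | _ u v =>
      by_cases t : s(u, v) ∈ (D : Set _)
      · exact Or.inr t
      · exact Or.inl ⟨ha, t⟩
  rw [div_le_iff₀ h2] at k1
  have k3 : (1 - rhoIn H G) * e G ≤ #C * e H := by
    have : (e G : ℝ) ≤ ((⊤ : G.G.Subgraph).deleteEdges D).edgeSet.ncard + #C * e H := by
      exact_mod_cast k2.trans (Nat.add_le_add_left cD _)
    linarith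
  have k4 : 0 < (1 - rhoIn H G) * e G := mul_pos (by linarith) h2
  refine ⟨C, nonempty_iff_ne_empty.2 fun z => ?_, c1, fun a => ?_⟩
  · simp only [z, card_empty, Nat.cast_zero, zero_mul] at k3
    linarith
  · have : (#{f ∈ C | a ∈ Sym2.map f '' H.G.edgeSet} : ℝ) ≤ 1 := by
      exact_mod_cast card_le_one.2 fun f hf g hg =>
        c2 f (mem_filter.1 hf).1 g (mem_filter.1 hg).1 a (mem_filter.1 hf).2 (mem_filter.1 hg).2
    nlinarith

theorem rand {H G : OG} (h1 : 1 ≤ e G) : ∃ p, rhoIn H G < 1 → RandEmb H G p ∧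
    0 ≤ maxP H G p ∧ (1 - rhoIn H G) * maxP H G p ≤ e H / e G := by
  by_cases h : rhoIn H G < 1
  swap
  · exact ⟨0, fun t => absurd t h⟩
  have h2 : (0 : ℝ) < e G := by exact_mod_cast h1
  obtain ⟨C, c1, c2, c3⟩ := pack h1 h
  have c4 : (0 : ℝ) < #C := by exact_mod_cast c1.card_pos
  have c5 : 0 < 1 - rhoIn H G := by linarith
  refine ⟨fun f => if f ∈ C then 1 / #C else 0, fun _ => ⟨⟨fun f => ?_, ?_, fun f t => ?_⟩, ?_, ?_⟩⟩
  · positivity
  · rw [sum_ite_mem, univ_inter, sum_const, nsmul_eq_mul, mul_one_div_cancel c4.ne']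
  · exact c2 f (by by_contra c; simp [c] at t)
  · refine Real.sSup_nonneg ?_
    rintro _ ⟨a, -, rfl⟩
    exact sum_nonneg fun f _ => by positivity
  · rw [← le_div_iff₀' c5]
    refine Real.sSup_le ?_ (by positivity)
    rintro _ ⟨a, -, rfl⟩
    rw [sum_ite_mem, filter_inter, univ_inter, sum_const, nsmul_eq_mul,
      le_div_iff₀' c5, le_div_iff₀ h2, mul_one_div, ← mul_div_assoc, div_mul_eq_mul_div,
      div_le_iff₀' c4]
    exact c3 a

theorem result (G : ℕ → OG) (hG : Universal G) (H : OG) :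
    ∃ p : ∀ n, (Fin H.n → Fin (G n).n) → ℝ, (∀ᶠ n in atTop, RandEmb H (G n) (p n)) ∧
      Tendsto (fun n => maxP H (G n) (p n) - e H / e (G n)) atTop (𝓝 0) ∧ rho H < 1 ∧
      ∀ c < 1 - rho H, ∀ᶠ n in atTop, c * maxP H (G n) (p n) ≤ e H / e (G n) := by
  choose p hp using fun n => rand (H := H) (hG.1 n)
  have ev : ∀ F, ∀ᶠ n in atTop, rhoIn F (G n) < 1 := fun F => (hG.2 F).eventually_lt_const (rho_lt F)
  have r := rho_lt H
  have mu : ∀ c < 1 - rho H, ∀ᶠ n in atTop, c * maxP H (G n) (p n) ≤ e H / e (G n) := by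
    intro c hc
    filter_upwards [ev H, (hG.2 H).eventually_lt_const (u := 1 - c) (by linarith)] with n a b
    obtain ⟨-, x, y⟩ := hp n a
    exact le_trans (mul_le_mul_of_nonneg_right (by linarith) x) y
  have t1 : Tendsto (fun n => e (G n)) atTop atTop := by
    refine tendsto_atTop.2 fun N => ?_
    filter_upwards [ev ⟨N + 1, ⊤⟩] with n a
    obtain ⟨f, hf⟩ := ex_emb (hG.1 n) a
    exact (e_top N).trans (e_le hf)
  have t2 : Tendsto (fun n => (e H : ℝ) / e (G n)) atTop (𝓝 0) :=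
    tendsto_const_nhds.div_atTop (tendsto_natCast_atTop_atTop.comp t1)
  refine ⟨p, (ev H).mono fun n a => (hp n a).1, ?_, r, mu⟩
  have c : 0 < (1 - rho H) / 2 := by linarith
  have t3 : Tendsto (fun n => maxP H (G n) (p n)) atTop (𝓝 0) := by
    have := t2.div_const ((1 - rho H) / 2)
    rw [zero_div] at this
    refine squeeze_zero' ((ev H).mono fun n a => (hp n a).2.1) ?_ this
    filter_upwards [mu ((1 - rho H) / 2) (by linarith)] with n a
    rwa [le_div_iff₀' c]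
  simpa using t3.sub t2

end Pool.Agent.Results.MP_37b92f_co.Packing
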